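import Pool.Agent.K3h75.NW.StmAW
import Pool.Agent.R187.WC.Eps
import Pool.Agent.R187.WC.FF

/-!
# The function field of an affine covering (project NW, brick AFFW)
-/

set_option autoImplicit false
set_option linter.all false

namespace Pool.Agent.K3h73.NW

open MvPolynomial Pool.Agent.K3h75.NW Pool.Agent.R187.WC

theorem aeval_dhW {R A : Type} [CommRing R] [CommRing A] [Algebra R A] {n : ℕ}
    (t : Option (Fin (n + 1)) → A) (ht : t (some 0) = 1)
    (G : MvPolynomial (Option (Fin (n + 1))) R) :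
    aeval (fun o : Option (Fin n) => t (o.map Fin.succ)) (dhW G) = aeval t G := by
  unfold dhW
  rw [← AlgHom.comp_apply]
  congr 1
  apply MvPolynomial.algHom_ext
  intro j
  rw [AlgHom.comp_apply, aeval_X, aeval_X]
  rcases j with _ | j
  · simp
  · refine Fin.cases ?_ (fun i => ?_) j
    · simp [ht]
    · simp

theorem dhW_mul {R : Type} [CommRing R] {n : ℕ} (P Q : MvPolynomial (Option (Fin (n + 1))) R) :
    dhW (P * Q) = dhW P * dhW Q := by
  unfold dhW
  rw [map_mul]

theorem dhW_add {R : Type} [CommRing R] {n : ℕ} (P Q : MvPolynomial (Option (Fin (n + 1))) R) :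
    dhW (P + Q) = dhW P + dhW Q := by
  unfold dhW
  rw [map_add]

theorem dhW_pow {R : Type} [CommRing R] {n : ℕ} (P : MvPolynomial (Option (Fin (n + 1))) R)
    (k : ℕ) : dhW (P ^ k) = dhW P ^ k := by
  unfold dhW
  rw [map_pow]

theorem dhW_X0 {R : Type} [CommRing R] {n : ℕ} :
    dhW (X (some 0) : MvPolynomial (Option (Fin (n + 1))) R) = 1 := by
  unfold dhW
  rw [aeval_X]
  rfl

theorem dhW_C {R : Type} [CommRing R] {n : ℕ} (a : R) :
    dhW (C a : MvPolynomial (Option (Fin (n + 1))) R) = C a := by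
  unfold dhW
  rw [aeval_C]
  rfl

theorem dhW_Xs {R : Type} [CommRing R] {n : ℕ} (o : Option (Fin n)) :
    dhW (X (o.map Fin.succ) : MvPolynomial (Option (Fin (n + 1))) R) = X o := by
  unfold dhW
  rw [aeval_X]
  rcases o with _ | i
  · rfl
  · simp

theorem exists_formW {R : Type} [CommRing R] {n : ℕ} (e : ℕ)
    (f : MvPolynomial (Option (Fin n)) R) :
    ∃ (N : ℕ) (P : MvPolynomial (Option (Fin (n + 1))) R), P.IsWeightedHomogeneous (wt e) N ∧
      dhW P = f := by
  induction f using MvPolynomial.induction_on with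
  | C a => exact ⟨0, C a, isWeightedHomogeneous_C _ _, dhW_C a⟩
  | add p q hp hq =>
    obtain ⟨N, P, hP, rfl⟩ := hp
    obtain ⟨M, Q, hQ, rfl⟩ := hq
    refine ⟨N + M, X (some 0) ^ M * P + X (some 0) ^ N * Q, ?_, ?_⟩
    · have h1 := ((isWeightedHomogeneous_X R (wt (ι := Fin (n + 1)) e) (some 0)).pow M).mul hP
      have h2 := ((isWeightedHomogeneous_X R (wt (ι := Fin (n + 1)) e) (some 0)).pow N).mul hQ
      rw [wt_some, smul_eq_mul, mul_one] at h1 h2
      refine IsWeightedHomogeneous.add ?_ h2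
      rwa [add_comm M N] at h1
    · rw [dhW_add, dhW_mul, dhW_mul, dhW_pow, dhW_pow, dhW_X0, one_pow, one_pow,
        one_mul, one_mul]
  | mul_X p o hp =>
    obtain ⟨N, P, hP, rfl⟩ := hp
    refine ⟨N + wt e (o.map Fin.succ), P * X (o.map Fin.succ),
      hP.mul (isWeightedHomogeneous_X R (wt e) (o.map Fin.succ)), ?_⟩
    rw [dhW_mul, dhW_Xs]

theorem dhW_ne_zero {E : Type} [Field E] {n : ℕ} (e : ℕ)
    (G : MvPolynomial (Option (Fin (n + 1))) E) (hG : G ≠ 0)
    (N : ℕ) (hGd : G.IsWeightedHomogeneous (wt e) N) : dhW G ≠ 0 := by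
  intro h
  have h1 := aeval_dhW (R := E) (tauW (R := E) (0 : Fin (n + 1))) (by simp [tauW]) G
  rw [h, map_zero] at h1
  exact dehW_ne_zero e (0 : Fin (n + 1)) G hG N hGd h1.symm

theorem affW_core {E F : Type} [Field E] [Field F] [Algebra E F] {n : ℕ} (e : ℕ)
    (G : MvPolynomial (Option (Fin (n + 1))) E) (x : Option (Fin (n + 1)) → F)
    (hx0 : x (some 0) = 1) (hdh : dhW G ≠ 0)
    (hG : aeval x G = 0) (hgen : IntermediateField.adjoin E (Set.range x) = ⊤)
    (hdvd : ∀ (N : ℕ) (P : MvPolynomial (Option (Fin (n + 1))) E),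
      P.IsWeightedHomogeneous (wt e) N → aeval x P = 0 → G ∣ P) :
    Irreducible (dhW G) ∧
      Nonempty (F ≃+* FractionRing (MvPolynomial (Option (Fin n)) E ⧸ Ideal.span {dhW G})) := by
  classical
  let φ : MvPolynomial (Option (Fin n)) E →ₐ[E] F :=
    aeval (fun o : Option (Fin n) => x (o.map Fin.succ))
  have hφ : ∀ Q : MvPolynomial (Option (Fin (n + 1))) E, φ (dhW Q) = aeval x Q := fun Q =>
    aeval_dhW x hx0 Q
  have hker : RingHom.ker φ = Ideal.span {dhW G} := by
    apply le_antisymm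
    · intro P hP
      obtain ⟨N, Q, hQe, hQ⟩ := exists_formW e P
      have h1 : aeval x Q = 0 := by
        rw [← hφ, hQ]
        exact hP
      obtain ⟨H, hH⟩ := hdvd N Q hQe h1
      rw [Ideal.mem_span_singleton, ← hQ, hH, dhW_mul]
      exact dvd_mul_right _ _
    · rw [Ideal.span_le, Set.singleton_subset_iff]
      change φ (dhW G) = 0
      rw [hφ, hG]
  have hprime : (Ideal.span {dhW G}).IsPrime := by
    rw [← hker]
    exact RingHom.ker_isPrime _
  refine ⟨((Ideal.span_singleton_prime hdh).1 hprime).irreducible, ?_⟩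
  let B := MvPolynomial (Option (Fin n)) E ⧸ Ideal.span {dhW G}
  let ψ : B →+* F := Ideal.Quotient.lift (Ideal.span {dhW G})
    (φ : MvPolynomial (Option (Fin n)) E →+* F)
    (fun a ha => by
      have h1 : a ∈ RingHom.ker φ := by rw [hker]; exact ha
      exact h1)
  have hψ : Function.Injective ψ := by
    rw [injective_iff_map_eq_zero]
    intro a ha
    obtain ⟨a, rfl⟩ := Ideal.Quotient.mk_surjective a
    rw [Ideal.Quotient.eq_zero_iff_mem, ← hker]
    exact ha
  let _ : Algebra B F := ψ.toAlgebra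
  have _ : FaithfulSMul B F := (faithfulSMul_iff_algebraMap_injective B F).2 hψ
  have _ : IsFractionRing B F := by
    apply IsFractionRing.of_field
    intro z
    have hz : z ∈ IntermediateField.adjoin E (Set.range x) := by rw [hgen]; trivial
    obtain ⟨r, s, hrs⟩ := (IntermediateField.mem_adjoin_range_iff E x z).1 hz
    refine ⟨Ideal.Quotient.mk _ (dhW r), Ideal.Quotient.mk _ (dhW s), ?_⟩
    change z = φ (dhW r) / φ (dhW s)
    rw [hφ, hφ, hrs]
  exact ⟨(FractionRing.algEquiv B F).symm.toRingEquiv⟩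

/-- **AFFW**: the function field of an affine covering. -/
theorem t_AFFW : S_AFFW := by
  intro E _ n e m he hm G hGd hc hG
  obtain ⟨F, _, _, x, b, hx0, hxG, hgen, hb⟩ := exists_ffW e m he hm G hGd hc hG
  obtain ⟨h1, h2⟩ := affW_core e G x hx0 (dhW_ne_zero e G hG.ne_zero _ hGd) hxG hgen
    (fun N P hPN hP => hyp_dvdW e x hx0 hgen b hb G hG.prime _ hGd hxG N P hPN hP)
  exact ⟨h1, F, inferInstance, inferInstance, x, b, hx0, hxG, hgen, hb, h2⟩

end Pool.Agent.K3h73.NW
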